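import Pool.Agent.Y142.SV.Stm
import Pool.Agent.Y405.SU.Perf

/-!
# Project Y142-SV, the statement PERFV: the Lie algebra is perfect
-/

set_option autoImplicit false

namespace Pool.Agent.Y314.SV

open Matrix Pool.Agent.Y142.SV Pool.Agent.Y405.SU

theorem t_PERFV : S_PERFV := by
  intro F _ _ N J 𝒞 hH hred hgen X hX
  obtain ⟨hJs, hJd, hcomm, hsa⟩ := hH
  have hJu : IsUnit J.det := isUnit_iff_ne_zero.mpr hJd
  have hJJ : J * J⁻¹ = 1 := mul_nonsing_inv J hJu
  have hJJ' : J⁻¹ * J = 1 := nonsing_inv_mul J hJu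
  -- the sign
  obtain ⟨ε, hε, hJε⟩ : ∃ ε : F, ε * ε = 1 ∧ Jᵀ = ε • J := by
    rcases hJs with h | h
    · exact ⟨1, by ring, by rw [h, one_smul]⟩
    · exact ⟨-1, by ring, by rw [h, neg_one_smul]⟩
  -- the adjoint
  obtain ⟨ad, had⟩ : ∃ ad : Matrix (Fin N) (Fin N) F → Matrix (Fin N) (Fin N) F,
      ad = fun P => J⁻¹ * Pᵀ * J := ⟨_, rfl⟩
  have hadd : ∀ P, ad P = J⁻¹ * Pᵀ * J := fun P => by rw [had]
  have had_sub : ∀ P Q, ad (P - Q) = ad P - ad Q := by
    intro P Q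
    rw [hadd, hadd, hadd, transpose_sub, mul_sub, sub_mul]
  have had_mul : ∀ P Q, ad (P * Q) = ad Q * ad P := by
    intro P Q
    rw [hadd, hadd, hadd, transpose_mul]
    have : J⁻¹ * Qᵀ * J * (J⁻¹ * Pᵀ * J) = J⁻¹ * Qᵀ * (J * J⁻¹) * Pᵀ * J := by noncomm_ring
    rw [this, hJJ, mul_one]
    noncomm_ring
  have had_ad : ∀ P, ad (ad P) = P := by
    intro P
    rw [hadd, hadd, transpose_mul, transpose_mul, transpose_transpose, transpose_nonsing_inv, hJε]
    have h1 : (ε • J)⁻¹ = ε • J⁻¹ := by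
      apply inv_eq_right_inv
      rw [smul_mul_smul_comm, hε, hJJ, one_smul]
    rw [h1]
    have h2 : J⁻¹ * (ε • J * (P * ε • J⁻¹)) * J = (ε * ε) • ((J⁻¹ * J) * P * (J⁻¹ * J)) := by
      simp only [smul_mul_assoc, mul_smul_comm, smul_smul]
      congr 1
      noncomm_ring
    rw [h2, hε, hJJ', one_mul, mul_one, one_smul]
  have hadC : ∀ A ∈ 𝒞, ad A = A := by
    intro A hA
    rw [hadd, mul_assoc, hsa A hA, ← mul_assoc, hJJ', one_mul]
  have had_CT : ∀ P ∈ CT 𝒞, ad P ∈ CT 𝒞 := by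
    intro P hP A hA
    have h1 := hP A hA
    have h2 := congrArg ad h1
    rw [had_mul, had_mul, hadC A hA] at h2
    exact h2.symm
  have had_tr : ∀ P, (ad P).trace = P.trace := by
    intro P
    rw [hadd, trace_mul_comm, ← mul_assoc, hJJ, one_mul, trace_transpose]
  -- characterization of the Lie algebra
  have hLie : ∀ Y : Matrix (Fin N) (Fin N) F, Y ∈ CT 𝒞 → ad Y = -Y → LieV J 𝒞 Y := by
    intro Y h1 h2
    refine ⟨h1, ?_⟩
    have h4 : J * ad Y = Yᵀ * J := by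
      rw [hadd, ← mul_assoc, ← mul_assoc, hJJ, one_mul]
    rw [← h4, h2, mul_neg, neg_add_cancel]
  have hLie1 : ∀ Y : Matrix (Fin N) (Fin N) F, LieV J 𝒞 Y → Y ∈ CT 𝒞 := fun Y h => h.1
  have hLie2 : ∀ Y : Matrix (Fin N) (Fin N) F, LieV J 𝒞 Y → ad Y = -Y := by
    intro Y h
    have h1 : Yᵀ * J = -(J * Y) := eq_neg_of_add_eq_zero_left h.2
    rw [hadd, mul_assoc, h1, mul_neg, ← mul_assoc, hJJ', one_mul]
  have hbrk : ∀ Y Y' : Matrix (Fin N) (Fin N) F, LieV J 𝒞 Y → LieV J 𝒞 Y' →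
      LieV J 𝒞 (Y * Y' - Y' * Y) := by
    intro Y Y' h h'
    refine hLie _ ((CT 𝒞).sub_mem (mul_CT h.1 h'.1) (mul_CT h'.1 h.1)) ?_
    rw [had_sub, had_mul, had_mul, hLie2 Y h, hLie2 Y' h']
    noncomm_ring
  have hskew : ∀ P ∈ CT 𝒞, LieV J 𝒞 (P - ad P) := by
    intro P hP
    refine hLie _ ((CT 𝒞).sub_mem hP (had_CT P hP)) ?_
    rw [had_sub, had_ad]
    abel
  -- the trace form is nondegenerate on the Lie algebra
  have hnd : ∀ D, LieV J 𝒞 D → (∀ Y, LieV J 𝒞 Y → (Y * D).trace = 0) → D = 0 := by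
    intro D hD h
    refine ndm hcomm hred D hD.1 fun P hP => ?_
    have h1 := h _ (hskew P hP)
    rw [sub_mul, trace_sub] at h1
    have h2 : (ad P * D).trace = -(P * D).trace := by
      have h3 : ad P * D = ad (ad D * P) := by rw [had_mul, had_ad]
      rw [h3, had_tr, hLie2 D hD, neg_mul, trace_neg, trace_mul_comm]
    rw [h2, sub_neg_eq_add, ← two_mul] at h1
    rcases mul_eq_zero.mp h1 with h4 | h4
    · exact absurd h4 two_ne_zero
    · exact h4
  -- the span of the brackets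
  by_contra hcon
  obtain ⟨f, hf1, hf2⟩ := Submodule.exists_dual_map_eq_bot_of_notMem hcon inferInstance
  obtain ⟨Z, hZ, hfZ⟩ := dualCT hcomm hred f
  have hf0 : ∀ Y Y' : Matrix (Fin N) (Fin N) F, LieV J 𝒞 Y → LieV J 𝒞 Y' →
      f (Y * Y' - Y' * Y) = 0 := by
    intro Y Y' h h'
    have h4 := Submodule.mem_map_of_mem (f := f) (Submodule.subset_span (R := F)
      (show Y * Y' - Y' * Y ∈ {Z : Matrix (Fin N) (Fin N) F | ∃ Y Y' : Matrix (Fin N) (Fin N) F,
        LieV J 𝒞 Y ∧ LieV J 𝒞 Y' ∧ Z = Y * Y' - Y' * Y} from ⟨Y, Y', h, h', rfl⟩))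
    rw [hf2] at h4
    exact (Submodule.mem_bot F).mp h4
  obtain ⟨W, hW⟩ : ∃ W, W = Z - ad Z := ⟨_, rfl⟩
  have hWL : LieV J 𝒞 W := by
    rw [hW]
    exact hskew Z hZ
  have hfW : ∀ Y, LieV J 𝒞 Y → (Y * W).trace = 2 * f Y := by
    intro Y hY
    rw [hfZ Y hY.1, hW, mul_sub, trace_sub]
    have h1 : (Y * ad Z).trace = -(Y * Z).trace := by
      have h2 : Y * ad Z = ad (Z * ad Y) := by rw [had_mul, had_ad]
      rw [h2, had_tr, hLie2 Y hY, mul_neg, trace_neg, trace_mul_comm]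
    rw [h1]
    ring
  have hcW : ∀ Y', LieV J 𝒞 Y' → Y' * W = W * Y' := by
    intro Y' hY'
    rw [← sub_eq_zero]
    refine hnd _ (hbrk _ _ hY' hWL) fun Y hY => ?_
    have h1 := hfW _ (hbrk _ _ hY hY')
    rw [hf0 _ _ hY hY', mul_zero, sub_mul, trace_sub] at h1
    have h2 : (Y' * Y * W).trace = (Y * (W * Y')).trace := by
      rw [mul_assoc, trace_mul_comm, mul_assoc]
    rw [mul_sub, trace_sub, ← h2, ← mul_assoc]
    exact h1
  have hcen' : ∀ P ∈ Algebra.adjoin F {Y | LieV J 𝒞 Y}, W * P = P * W := by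
    intro P hP
    induction hP using Algebra.adjoin_induction with
    | mem y hy => exact (hcW y hy).symm
    | algebraMap r => exact (Algebra.commutes r W).symm
    | add x y _ _ h1 h2 => rw [mul_add, add_mul, h1, h2]
    | mul x y _ _ h1 h2 => rw [← mul_assoc, h1, mul_assoc, h2, mul_assoc]
  have hcen : ∀ P ∈ CT 𝒞, W * P = P * W := fun P hP => hcen' P (hgen P hP)
  have hWC : W ∈ 𝒞 := dcm hcomm hred W hcen
  have hW0 : W = 0 := by
    have h1 := hadC W hWC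
    rw [hLie2 W hWL] at h1
    have h2 : (2 : F) • W = 0 := by
      rw [two_smul]
      nth_rw 1 [← h1]
      rw [neg_add_cancel]
    rcases smul_eq_zero.mp h2 with h3 | h3
    · exact absurd h3 two_ne_zero
    · exact h3
  have h5 := hfW X hX
  rw [hW0, mul_zero, trace_zero] at h5
  rcases mul_eq_zero.mp h5.symm with h6 | h6
  · exact absurd h6 two_ne_zero
  · exact hf1 h6

end Pool.Agent.Y314.SV
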